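import Pool.Agent.Run7.h460.QD.Ifc
import Pool.Agent.Results.MP_6073f3_nt.CubicTwistsRankZero

/-!
# Rank zero for the cubic twists inside arbitrary dense sets

`E_n : y² + n y = x³` over `ℚ` (it is `3`-isogenous to `x³ + y³ = n`, and `E_n` and `E_{n r³}` are
isomorphic). `D` runs over the family of the squarefree numbers prime to `3`, not `±1` modulo `9`, with
exactly one prime factor `≡ 2` modulo `3`. The multipliers are the cube-free numbers all of whose prime
factors are `1` modulo `9`. `Good n` means that `E_n(ℚ)` is finite and `Ш(E_n)[3^∞] = 0` (for the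
cube-free part of `n`); for the `n` which occur here the rank of `E_n` is then `0` and `L(E_n, 1) ≠ 0`.
`c = ∏_{i ≥ 1} (1 - 3^{-i}) = 0.5601...`.

* **Mixing.** Let `A` be an arbitrary set of members of the family, of upper density at least `δ`, `T` a
  finite set of multipliers, `V ⊆ T`. For all but at most `4 |T|² / ε²` multipliers `m` the `D ∈ A` such that
  for all `t ∈ T` the number `D m t` is good exactly if `t ∈ V` have upper density at least
  `δ c^|V| (1 - c)^(|T| - |V|) - ε`. The number of exceptions does not depend on `A`. In particular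
  (`T = V = {1}`), for all but at most `4 / ε²` multipliers `m` the curves `E_{D m}`, `D ∈ A`, of rank
  zero have upper density at least `c δ - ε`: no choice of the set `A` of twists can prevent this.
* **Independence along a sequence.** Every infinite set of multipliers contains different `m_0, m_1, ...`
  such that for all `n` and all sets `Z` of subsets of `{0, ..., n - 1}` the `D ∈ A` such that for all
  nonempty `S ⊆ {0, ..., n - 1}` the number `D ∏_{i ∈ S} m_i` is good exactly if `S ∈ Z` have positive upper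
  density, if `A` has.
* **Sharpness.** For every finite set `F` of multipliers the `D` such that no `D m`, `m ∈ F`, is good have
  density exactly `(1 - c)^|F|`. So the number of exceptions cannot be bounded independently of `ε` and
  `δ`.

The case `A =` the family is the starting result of project JL (R432/JG, the joint law of the twists, by
helper962, helper159, helper152, helper916, helper258, helper432) for the `D` prime to the multipliers, and
for `T = {1}` the file `CubicTwistsRankZero` of this folder. The passage to dense sets is the second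
moment method, after helper428 (`Run7/h428`). New: arbitrary sets `A`, the explicit number of exceptions,
the sequences, and all `D`, also those that are not prime to the multipliers.
-/

set_option autoImplicit false

open scoped Classical
open Filter Topology

namespace Pool.Agent.Results.MP_6073f3_nt.DenseSetsOfTwists

open Pool.Agent.Results.MP_6073f3_nt.CubicTwistsRankZero (E minDisc TrivialThree RankZero)

/-- The family: `D` is squarefree, prime to `3`, not `±1` modulo `9`, and has exactly one prime factor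
congruent to `2` modulo `3`. -/
def Family (D : ℕ) : Prop :=
  Squarefree D ∧ ¬ 3 ∣ D ∧ D % 9 ≠ 1 ∧ D % 9 ≠ 8 ∧
    ∃ q : ℕ, q.Prime ∧ q % 3 = 2 ∧ q ∣ D ∧ ∀ p : ℕ, p.Prime → p ∣ D → p ≠ q → p % 3 = 1

/-- The multipliers: cube-free numbers all of whose prime factors are `1` modulo `9`. -/
def IsMultiplier (m : ℕ) : Prop :=
  m ≠ 0 ∧ (∀ p : ℕ, p.Prime → ¬ p ^ 3 ∣ m) ∧ ∀ p : ℕ, p.Prime → p ∣ m → p % 9 = 1

/-- The cube-free part of `n`: the exponents are reduced modulo `3`. -/
noncomputable def cubeFreePart (n : ℕ) : ℕ := n.factorization.prod fun p e => p ^ (e % 3)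

/-- `E_n(ℚ)` is finite and `Ш(E_n / ℚ)[3^∞] = 0`, where `n` is replaced by its cube-free part. -/
def Good (n : ℕ) : Prop := TrivialThree (cubeFreePart n)

/-- The number of the `D ≤ X` of the family that belong to `A`. -/
noncomputable def count (A : Set ℕ) (X : ℕ) : ℕ :=
  ((Finset.Icc 1 X).filter fun D => Family D ∧ D ∈ A).card

/-- The upper density of `A` in the family is at least `δ`. -/
def UpperDensity (A : Set ℕ) (δ : ℝ) : Prop :=
  ∀ ε : ℝ, 0 < ε → ∃ᶠ X : ℕ in atTop, (δ - ε) * (count Set.univ X : ℝ) ≤ (count A X : ℝ)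

/-- `c = ∏_{i ≥ 1} (1 - 3^{-i})`. -/
noncomputable def c : ℝ := ∏' i : ℕ, (1 - (1 / 3 : ℝ) ^ (i + 1))

section proof

open Run7.h460.JL.Mix (cn UD)
open Run7.h460.QD (Large)
open Run7.h460.QD.Q (SC cf IsMult IsNine cn_card cn_univ card_tendsto cls_cf cf_spec)
open Pool.Agent.R432.JG (Cl cl_iff)
open Pool.Agent.Y703.CT (Cls NoSplit)

theorem fam_iff (D : ℕ) : Family D ↔ Cl ∅ D := by
  rw [cl_iff]
  unfold Family
  simp

theorem mult_iff (m : ℕ) : IsMultiplier m ↔ IsMult m := Iff.rfl

theorem empty_ok : ∀ q ∈ (∅ : Finset ℕ), q.Prime ∧ q % 9 = 1 := fun q hq =>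
  absurd hq (Finset.notMem_empty q)

theorem count_eq (A : Set ℕ) (X : ℕ) : (count A X : ℝ) = cn (SC ∅ X) A :=
  (cn_card fam_iff A X).symm

theorem count_univ (X : ℕ) : (count Set.univ X : ℝ) = ((SC ∅ X).card : ℝ) :=
  (count_eq _ _).trans (cn_univ X)

theorem ud_iff (A : Set ℕ) (δ : ℝ) : UpperDensity A δ ↔ UD (SC ∅) A δ := by
  unfold UpperDensity UD
  simp only [count_eq, cn_univ]

theorem crit {D : ℕ} (hD : Cls D) : TrivialThree D ↔ NoSplit D :=
  ((Pool.Agent.Results.MP_6073f3_nt.CubicTwistsRankZero.result.2.2.1 D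
    ((Pool.Agent.Results.MP_6073f3_nt.CubicTwistsRankZero.class_iff D).2 hD)).2.1)

theorem good_iff {D n : ℕ} (hD : Family D) (hn : IsNine n) : Good (D * n) ↔ NoSplit (cf (D * n)) :=
  crit (cls_cf ((fam_iff D).1 hD) hn)

end proof

open Run7.h460.JL.Mix (cn UD)
open Run7.h460.QD (Large)
open Run7.h460.QD.Q (SC cf IsMult IsNine)
open Pool.Agent.R432.JG (Cl cl_iff)

/-- **Main theorem.** -/
theorem result :
    (0.56 : ℝ) < c ∧ Tendsto (fun X => count Set.univ X) atTop atTop ∧
    -- the curves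
    (∀ D n : ℕ, Family D → n ≠ 0 → (∀ p : ℕ, p.Prime → p ∣ n → p % 9 = 1) →
      (∃ r : ℕ, 0 < r ∧ D * n = cubeFreePart (D * n) * r ^ 3) ∧
      minDisc (E (cubeFreePart (D * n))) = 27 * cubeFreePart (D * n) ^ 4 ∧
      (Good (D * n) → RankZero (cubeFreePart (D * n)))) ∧
    -- mixing, with an explicit number of exceptions
    (∀ (A : Set ℕ) (δ : ℝ), UpperDensity A δ →
      ∀ (T V : Finset ℕ), (∀ t ∈ T, IsMultiplier t) → V ⊆ T → ∀ ε : ℝ, 0 < ε →
      ∀ F : Finset ℕ, (∀ m ∈ F, IsMultiplier m) → 4 * (T.card : ℝ) ^ 2 / ε ^ 2 < F.card →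
      ∃ m ∈ F, UpperDensity {D | D ∈ A ∧ ∀ t ∈ T, (Good (D * (m * t)) ↔ t ∈ V)}
        (δ * (c ^ V.card * (1 - c) ^ (T.card - V.card)) - ε)) ∧
    -- independence along a sequence
    (∀ A : Set ℕ, (∃ δ : ℝ, 0 < δ ∧ UpperDensity A δ) →
      ∀ M : Set ℕ, M.Infinite → (∀ m ∈ M, IsMultiplier m) →
      ∃ m : ℕ → ℕ, Function.Injective m ∧ (∀ i, m i ∈ M) ∧
        ∀ (n : ℕ) (Z : Finset (Finset ℕ)), ∃ δ : ℝ, 0 < δ ∧
          UpperDensity {D | D ∈ A ∧ ∀ S ⊆ Finset.range n, S.Nonempty →
            (Good (D * ∏ i ∈ S, m i) ↔ S ∈ Z)} δ) ∧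
    -- sharpness
    ∀ F : Finset ℕ, (∀ m ∈ F, IsMultiplier m) →
      Tendsto (fun X => (count {D | ∀ m ∈ F, ¬ Good (D * m)} X : ℝ) / (count Set.univ X : ℝ)) atTop
        (𝓝 ((1 - c) ^ F.card)) := by
  refine ⟨Pool.Agent.R432.JG.c3_gt, ?_, fun D n hD hn0 hn => ?_, ?_, ?_, ?_⟩
  · rw [← tendsto_natCast_atTop_iff (R := ℝ)]
    refine (Run7.h460.QD.Q.card_tendsto empty_ok).congr fun X => ?_
    rw [count_univ]
  · have hC := Run7.h460.QD.Q.cls_cf ((fam_iff D).1 hD) (n := n) ⟨hn0, hn⟩
    have hC' := (Pool.Agent.Results.MP_6073f3_nt.CubicTwistsRankZero.class_iff _).2 hC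
    have h1 := Pool.Agent.Results.MP_6073f3_nt.CubicTwistsRankZero.result.2.2.1 _ hC'
    exact ⟨Run7.h460.QD.Q.cf_spec (mul_ne_zero hD.1.ne_zero hn0), h1.1, h1.2.2⟩
  · intro A δ hA T V hT hV ε hε F hF hc
    obtain ⟨m, hm, h⟩ := Run7.h460.QD.Q.mix_nat empty_ok hT hV ((ud_iff A δ).1 hA) hε hF hc
    refine ⟨m, hm, (ud_iff _ _).2 ?_⟩
    have e : δ * (c ^ V.card * (1 - c) ^ (T.card - V.card)) - ε =
        Pool.Agent.Y703.CX.c3 ^ V.card * (1 - Pool.Agent.Y703.CX.c3) ^ (T.card - V.card) * δ - ε := by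
      show δ * (c ^ V.card * (1 - c) ^ (T.card - V.card)) - ε =
        c ^ V.card * (1 - c) ^ (T.card - V.card) * δ - ε
      ring
    rw [e]
    refine Run7.h460.QD.Q.UD.congr' h fun X D hD hDA => ⟨hDA.1, fun t ht => ?_⟩
    rw [← hDA.2 t ht]
    exact good_iff ((fam_iff D).2 (Run7.h460.QD.Q.mem_SC hD))
      ((Run7.h460.QD.Q.IsMult.nine (hF m hm)).mul (Run7.h460.QD.Q.IsMult.nine (hT t ht)))
  · rintro A ⟨δ, hδ, hA⟩ M hM hMm
    obtain ⟨u, h1, h2, h3⟩ := Run7.h460.QD.Q.sub_nat empty_ok hM hMm ⟨δ, hδ, (ud_iff A δ).1 hA⟩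
    refine ⟨u, h1, h2, fun n Z => ?_⟩
    obtain ⟨δ', h4, h5⟩ := h3 n Z
    refine ⟨δ', h4, (ud_iff _ _).2 (Run7.h460.QD.Q.UD.congr' h5 fun X D hD hDA =>
      ⟨hDA.1, fun S hS hne => ?_⟩)⟩
    rw [← hDA.2 S hS hne]
    refine good_iff ((fam_iff D).2 (Run7.h460.QD.Q.mem_SC hD)) ?_
    clear hDA hne hS
    induction S using Finset.induction_on with
    | empty =>
      rw [Finset.prod_empty]
      exact ⟨one_ne_zero, fun p hp hd => absurd (Nat.dvd_one.1 hd) hp.one_lt.ne'⟩
    | insert a s ha ih =>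
      rw [Finset.prod_insert ha]
      exact (Run7.h460.QD.Q.IsMult.nine (hMm _ (h2 a))).mul ih
  · intro F hF
    have h := Run7.h460.QD.Q.law_nat empty_ok (T := F) (V := ∅) hF (Finset.empty_subset _)
    rw [Finset.card_empty, pow_zero, one_mul, Nat.sub_zero] at h
    refine h.congr fun X => ?_
    rw [count_eq, count_univ]
    congr 1
    refine Run7.h460.QD.Q.cn_congr fun D hD => ?_
    show (∀ t ∈ F, _) ↔ ∀ m ∈ F, _
    refine forall₂_congr fun m hm => ?_
    rw [good_iff ((fam_iff D).2 (Run7.h460.QD.Q.mem_SC hD)) (Run7.h460.QD.Q.IsMult.nine (hF m hm))]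
    simp

end Pool.Agent.Results.MP_6073f3_nt.DenseSetsOfTwists
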