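import Pool.Agent.Run7.h61.LD.All

/-!
# One half and one half: the exponents of the products of Birch and Swinnerton-Dyer

`K` is any number field.  The theorem holds for the family of all curves `y² = x³ + ax + b` over `K` (first
clause), and, more generally, for every family `𝓕` of monic polynomials
`f_t = F₀ + (∏ (X - x_i)) (t₀ X + t₁ + ∑ t_j P_j)` of degree `d ≥ 3` over the integers of `K` whose curves
`C_t : y² = f_t(x)` pass through given points `(x_i, y_i)`, `i < r`; `ρ = 𝓕.rk` is `r` if `d` is odd and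
`r + 1` if `d` is even, the number of the marked points of the Jacobians.  The minimalist conjecture says
`ρ = 0`: rank `0` for one half of the curves, rank `1` for one half, average rank `1/2`; for families with
marked points it is expected with `ρ` and `ρ + 1`.

Birch and Swinnerton-Dyer: `B_Z(t) = ∏_{Nv ≤ Z} #C_t(k_v) / Nv` (good places) should grow as
`(log Z)^rank`.  Let `M_Z = ∏_{Nv ≤ Z} (1 - 1/Nv)⁻¹`, so `log M_Z = log log Z + O(1)`, and let `R_Z(t)` be the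
integer nearest to `log B_Z(t) / log M_Z`, the rank which the number of the points modulo the primes up to
`Z` suggests.  For `Z = H^(o(1))` the statistics of `R_Z` are those of the minimalist conjecture:

1. `R_Z = ρ` for one half and `R_Z = ρ + 1` for one half of the members (up to any `ε`, as soon as the
   sides of the box are at least `Z^C`, `C = C(ε)`, the sides being arbitrary otherwise);
2. with all moments: for every function `g` on the integers of polynomial growth the average of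
   `g(R_Z(t))` tends to `(g(ρ) + g(ρ + 1)) / 2`; in particular the average of `R_Z` tends to `ρ + 1/2`;
3. (exact large deviations, sides at least `exp(Z^(1+θ))`) for every integer `n` the proportion of the members
   with `R_Z = n` is `M_Z^(-d²/2 + o(1))`, `d` the distance of `n` from `{ρ, ρ + 1}`;
4. for all real `a < b` the proportion of the members with `M_Z^a ≤ B_Z ≤ M_Z^b` is
   `M_Z^(-d²/2 + o(1))`, `d` the distance of `ρ + 1/2` from the interval `[a, b]`, and likewise for the two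
   kinds of half-lines.
-/

set_option autoImplicit false
open NumberField IsDedekindDomain Polynomial

namespace Pool.Agent.Results.MP_6073f3_nt.FiftyFiftyAndLargeDeviations

open Run7.h876.HY Run7.h876.EN Run7.h9.BS Run7.h61.LD

/-- **One half and one half, and exact large deviations.** -/
theorem result (K : Type) [Field K] [NumberField K] :
    (∃ 𝓕 : Family K (Fin 0), 𝓕.rk = 0 ∧ ∀ t : Fin 2 ⊕ Fin 0 → 𝓞 K,
      𝓕.member t = X ^ 3 + C (t (Sum.inl 0)) * X + C (t (Sum.inl 1))) ∧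
    (∃ C : ℝ, ∀ Z : ℕ, 3 ≤ Z → |Real.log (zetaProd K Z) - Real.log (Real.log Z)| ≤ C) ∧
    ∀ (J : Type) [Fintype J] [DecidableEq J] (𝓕 : Family K J),
    ∀ (ι : Type) [Fintype ι] [DecidableEq ι] (ω : Module.Basis ι ℤ (𝓞 K)), ∀ ε : ℝ, 0 < ε →
      -- one half and one half
      (∃ C Z₀ : ℕ, ∀ Z : ℕ, Z₀ ≤ Z → ∀ H : Fin 2 ⊕ J → ℕ, (∀ j, Z ^ C ≤ H j) →
        |prop ω H 𝓕.smooth (fun t => rankGuess Z (𝓕.member t) = (𝓕.rk : ℤ)) - 1 / 2| ≤ ε ∧
        |prop ω H 𝓕.smooth (fun t => rankGuess Z (𝓕.member t) = (𝓕.rk : ℤ) + 1) - 1 / 2| ≤ ε) ∧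
      -- with all moments
      (∀ k : ℕ, ∃ C Z₀ : ℕ, ∀ Z : ℕ, Z₀ ≤ Z → ∀ H : Fin 2 ⊕ J → ℕ, (∀ j, Z ^ C ≤ H j) →
        ∀ g : ℤ → ℝ, (∀ n, |g n| ≤ (1 + |(n : ℝ)|) ^ k) →
          |avgOn ω H 𝓕.smooth (fun t => g (rankGuess Z (𝓕.member t))) - (g 𝓕.rk + g (𝓕.rk + 1)) / 2| ≤ ε) ∧
      -- large deviations
      ∀ θ : ℝ, 0 < θ →
        (∀ n : ℤ, ∃ Z₀ : ℕ, ∀ Z : ℕ, Z₀ ≤ Z →
          ∀ H : Fin 2 ⊕ J → ℕ, (∀ j, Real.exp ((Z : ℝ) ^ (1 + θ)) ≤ H j) →
          0 < prop ω H 𝓕.smooth (fun t => rankGuess Z (𝓕.member t) = n) ∧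
          |Real.log (prop ω H 𝓕.smooth (fun t => rankGuess Z (𝓕.member t) = n)) / Real.log (zetaProd K Z) +
            (max (max ((n : ℝ) - 𝓕.rk - 1) (𝓕.rk - n)) 0) ^ 2 / 2| ≤ ε) ∧
        (∀ a b : ℝ, a < b → ∃ Z₀ : ℕ, ∀ Z : ℕ, Z₀ ≤ Z →
          ∀ H : Fin 2 ⊕ J → ℕ, (∀ j, Real.exp ((Z : ℝ) ^ (1 + θ)) ≤ H j) →
          0 < prop ω H 𝓕.smooth (fun t => a * Real.log (zetaProd K Z) ≤ Real.log (bsd Z (𝓕.member t)) ∧
            Real.log (bsd Z (𝓕.member t)) ≤ b * Real.log (zetaProd K Z)) ∧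
          |Real.log (prop ω H 𝓕.smooth (fun t => a * Real.log (zetaProd K Z) ≤ Real.log (bsd Z (𝓕.member t)) ∧
            Real.log (bsd Z (𝓕.member t)) ≤ b * Real.log (zetaProd K Z))) / Real.log (zetaProd K Z) +
            (max (max (a - (𝓕.rk + 1 / 2)) (𝓕.rk + 1 / 2 - b)) 0) ^ 2 / 2| ≤ ε) ∧
        (∀ a : ℝ, ∃ Z₀ : ℕ, ∀ Z : ℕ, Z₀ ≤ Z →
          ∀ H : Fin 2 ⊕ J → ℕ, (∀ j, Real.exp ((Z : ℝ) ^ (1 + θ)) ≤ H j) →
          0 < prop ω H 𝓕.smooth (fun t => a * Real.log (zetaProd K Z) ≤ Real.log (bsd Z (𝓕.member t))) ∧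
          |Real.log (prop ω H 𝓕.smooth (fun t => a * Real.log (zetaProd K Z) ≤ Real.log (bsd Z (𝓕.member t)))) /
            Real.log (zetaProd K Z) + (max (a - (𝓕.rk + 1 / 2)) 0) ^ 2 / 2| ≤ ε) ∧
        (∀ b : ℝ, ∃ Z₀ : ℕ, ∀ Z : ℕ, Z₀ ≤ Z →
          ∀ H : Fin 2 ⊕ J → ℕ, (∀ j, Real.exp ((Z : ℝ) ^ (1 + θ)) ≤ H j) →
          0 < prop ω H 𝓕.smooth (fun t => Real.log (bsd Z (𝓕.member t)) ≤ b * Real.log (zetaProd K Z)) ∧
          |Real.log (prop ω H 𝓕.smooth (fun t => Real.log (bsd Z (𝓕.member t)) ≤ b * Real.log (zetaProd K Z))) /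
            Real.log (zetaProd K Z) + (max (𝓕.rk + 1 / 2 - b) 0) ^ 2 / 2| ≤ ε) :=
  ⟨allCurves_facts K, mertens_zeta K, fun _ _ _ 𝓕 _ _ _ ω _ hε =>
    ⟨halves 𝓕 ω hε, fun k => law 𝓕 ω k hε, fun _ hθ =>
      ⟨fun n => guess 𝓕 ω hθ n hε, fun _ _ hab => between 𝓕 ω hθ hab hε, fun a => up 𝓕 ω hθ a hε,
        fun b => down 𝓕 ω hθ b hε⟩⟩⟩

end Pool.Agent.Results.MP_6073f3_nt.FiftyFiftyAndLargeDeviations
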