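import Mathlib
import Pool.Agent.Run7.h318.DI.C

/-!
# Elliptic curves with full rational 2-torsion, ordered by the minimal discriminant

The second ordering of the problem is the one by the absolute value of the minimal discriminant.
Consider all the elliptic curves over `ℚ` with full rational 2-torsion in this ordering.

Theorem. The number of these curves with `|Δ_min| ≤ X` is of the exact order `X ^ (1 / 3)`. The average of
`4 ^ rank` over them is bounded; in particular the average rank is bounded, and the proportion of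
the curves of rank at least `M` is at most `C / 4 ^ M`, for all `M` and `X`.

The proof. The curves are `y² = x (x - a) (x - b)`, with `|Δ_min|` equal to `(a b (a - b))²` up to a
bounded factor. The region `|a b (a - b)| ≤ Y` has three cusps, which go to infinity, where the region
is very thin (`b` may be `1` when `a` is as large as `Y ^ (1 / 2)`, whereas the main part of the region has
diameter `Y ^ (1 / 3)`), so that the counting by height says nothing there. Up to the symmetries, which
change the coordinate of one of the roots, the region is `|b| ≤ |a|`, `a² |b| ≤ 2 Y`. It is covered by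
dyadic rectangles, and these by squares whose side is a small power `h` of `Y`, with
`h` at least a fixed power of the distance from the origin; the total area of the squares is at
most a constant times `Y ^ (2 / 3)`. For all these squares the second moment of the number of the
2-Selmer elements is bounded by a constant times the area (`Pool/Agent/Run7/h69`, helper69).
-/

set_option autoImplicit false

namespace Pool.Agent.Results.MP_6073f3_nt.OrderedByDiscriminant

open Finset Filter

/-- The equation `y ^ 2 = x ^ 3 + A x + B` with integers `A`, `B` defines an elliptic curve, and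
there is no prime `p` with `p ^ 4 ∣ A` and `p ^ 6 ∣ B`. Every elliptic curve over `ℚ` is isomorphic to
exactly one of these. -/
structure IsMinimal (A B : ℤ) : Prop where
  elliptic : 4 * A ^ 3 + 27 * B ^ 2 ≠ 0
  minimal : ∀ p : ℕ, p.Prime → ¬ ((p : ℤ) ^ 4 ∣ A ∧ (p : ℤ) ^ 6 ∣ B)

/-- The curve `y ^ 2 = x ^ 3 + A x + B` over `ℚ`. -/
def curve (c : ℤ × ℤ) : WeierstrassCurve ℚ := ⟨0, 0, 0, (c.1 : ℚ), (c.2 : ℚ)⟩

/-- The rank of the group of the rational points. -/
noncomputable def rank (W : WeierstrassCurve ℚ) : ℕ := Module.finrank ℤ W.toAffine.Point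

/-- The group of the rational points contains `Z/2 x Z/2`. -/
def FullTwo (W : WeierstrassCurve ℚ) : Prop :=
  ∃ f : ZMod 2 × ZMod 2 →+ W.toAffine.Point, Function.Injective f

/-- The absolute value of the minimal discriminant: the least absolute value of the discriminant
of a Weierstrass equation `W'` with integer coefficients which becomes isomorphic to `W` over `ℚ` (by
a change of the variables `C`). -/
noncomputable def minDisc (W : WeierstrassCurve ℚ) : ℕ :=
  sInf {n : ℕ | ∃ (W' : WeierstrassCurve ℤ) (C : WeierstrassCurve.VariableChange ℚ),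
    C • W = W'.map (Int.castRingHom ℚ) ∧ n = W'.Δ.natAbs}

/-- The set of all the elliptic curves over `ℚ` (up to isomorphism) with full rational 2-torsion and
minimal discriminant at most `X` in absolute value. -/
def Fam (X : ℕ) : Set (ℤ × ℤ) :=
  {c | IsMinimal c.1 c.2 ∧ FullTwo (curve c) ∧ minDisc (curve c) ≤ X}

lemma Fam_eq (X : ℕ) : Fam X = Run7.h318.DI.Fm X := by
  ext c
  have h : Pool.Agent.W307.RT.HasT 2 (Pool.Agent.W307.RT.Sh c.1 c.2) ↔ FullTwo (curve c) :=
    Pool.Agent.W307.RT.tors_iff
  constructor
  · rintro ⟨⟨h1, h2⟩, h3, h4⟩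
    exact ⟨h1, h2, h.2 h3, h4⟩
  · rintro ⟨h1, h2, h3, h4⟩
    exact ⟨⟨h1, h2⟩, h.1 h3, h4⟩

/-- **Theorem.** The elliptic curves over `ℚ` with full rational 2-torsion, ordered by the absolute
value of the minimal discriminant: there are finitely many with `|Δ_min| ≤ X`, their number is of the
exact order `X ^ (1 / 3)`, the average of `4 ^ rank` over them is bounded, and the proportion of the curves
of rank at least `M` is at most `C / 4 ^ M`. -/
theorem result :
    (∀ X : ℕ, (Fam X).Finite) ∧
    (∃ (c C : ℝ) (X₀ : ℕ), 0 < c ∧ ∀ X : ℕ, X₀ ≤ X →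
      c * (X : ℝ) ^ (1 / 3 : ℝ) ≤ (Fam X).ncard ∧
      ((Fam X).ncard : ℝ) ≤ C * (X : ℝ) ^ (1 / 3 : ℝ)) ∧
    ∃ C : ℝ, ∀ X : ℕ,
      ∑ᶠ c ∈ Fam X, (4 : ℝ) ^ rank (curve c) ≤ C * (Fam X).ncard ∧
      ∀ M : ℕ, (4 : ℝ) ^ M * ({c ∈ Fam X | M ≤ rank (curve c)} : Set (ℤ × ℤ)).ncard ≤
        C * (Fam X).ncard := by
  have hfin : ∀ X : ℕ, (Fam X).Finite := by
    intro X
    rw [Fam_eq]
    exact Run7.h318.DI.Fm_finite X
  have hS : ∀ X : ℕ, (hfin X).toFinset = Run7.h318.DI.FS X := by
    intro X
    ext c
    rw [Set.Finite.mem_toFinset, Run7.h318.DI.mem_FS, Fam_eq]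
  have hcard : ∀ X : ℕ, (Fam X).ncard = (Run7.h318.DI.FS X).card := by
    intro X
    rw [Set.ncard_eq_toFinset_card _ (hfin X), hS]
  obtain ⟨C, hC0, hC⟩ := Run7.h69.UF.box 9
  refine ⟨hfin, ?_, ?_⟩
  · obtain ⟨c, C', hc, h⟩ := Run7.h318.DI.number hC0 hC
    refine ⟨c, C', 7 ^ 24, hc, fun X hX => ?_⟩
    rw [hcard]
    exact h X hX
  · obtain ⟨C', h⟩ := Run7.h318.DI.average (R := Run7.h69.UF.RR) Run7.h69.UF.RR_nonneg hC0 hC
      (w := fun c => (4 : ℝ) ^ rank (curve c)) (fun c t hr => by
        have e : rank (curve c) =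
            Module.finrank ℤ (Pool.Agent.W262.RK.EAB t.1 t.2).toAffine.Point :=
          Run7.h69.UH.rel_rank hr
        rw [e]
        exact le_refl _)
    refine ⟨C', fun X => ?_⟩
    have h1 : ∑ᶠ c ∈ Fam X, (4 : ℝ) ^ rank (curve c) ≤ C' * (Fam X).ncard := by
      rw [finsum_mem_eq_finite_toFinset_sum _ (hfin X), hS, hcard]
      exact h X
    refine ⟨h1, fun M => le_trans ?_ h1⟩
    rw [finsum_mem_eq_finite_toFinset_sum _ (hfin X)]
    have hfin' : ({c ∈ Fam X | M ≤ rank (curve c)} : Set (ℤ × ℤ)).Finite :=
      (hfin X).subset fun c hc => hc.1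
    rw [Set.ncard_eq_toFinset_card _ hfin']
    calc (4 : ℝ) ^ M * (hfin'.toFinset.card : ℝ)
        = ∑ c ∈ hfin'.toFinset, (4 : ℝ) ^ M := by rw [sum_const, nsmul_eq_mul, mul_comm]
      _ ≤ ∑ c ∈ hfin'.toFinset, (4 : ℝ) ^ rank (curve c) := by
        apply sum_le_sum
        intro c hc
        rw [Set.Finite.mem_toFinset] at hc
        exact pow_le_pow_right₀ (by norm_num) hc.2
      _ ≤ _ := by
        apply sum_le_sum_of_subset_of_nonneg
        · intro c hc
          rw [Set.Finite.mem_toFinset] at hc ⊢
          exact hc.1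
        · intro c _ _
          positivity

end Pool.Agent.Results.MP_6073f3_nt.OrderedByDiscriminant
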