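import Mathlib
import Pool.Agent.Run7.h69.JB9
import Pool.Agent.Run7.h69.MA8

/-!
# Rational points and `Ш[2]` of the Jacobians of `y² = F(u, v) ∏ (x - a_i)`, on average over `(u, v)`

Let `a_1, …, a_{2g+1}` be distinct integers, `g ≥ 1`, and let `F` be any binary form of any degree
with integer coefficients. For the pairs `(u, v)` of coprime integers with `F(u, v) ≠ 0` let
`J_{u,v}` be the Jacobian of the hyperelliptic curve `y² = F(u, v) (x - a_1) ⋯ (x - a_{2g+1})`, an
abelian variety of dimension `g` over `ℚ`. It is proved that the groups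
`J_{u,v}(ℚ) / 2 J_{u,v}(ℚ)` and `Ш(J_{u,v})[2]` are finite, and that for every `k` and every
`ε > 0` the average of the `k`-th power of the product of their orders over the coprime `(u, v)` of
a square `(x, x + H] × (y, y + H]` is bounded, uniformly in `x`, `y` and `H ≥ |x| ^ ε, |y| ^ ε`. By
the theorem of Mordell and Weil the order of `J(ℚ) / 2 J(ℚ)` is `2 ^ (rank J(ℚ) + 2 g)`.

If `f` is a polynomial in one variable and `2 m` is at least its degree then
`F(u, v) = v ^ (2 m) f(u / v)` is a binary form, and the twist by `F(u, v)` is the twist by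
`f(u / v)` as these numbers differ by a square. So the theorem contains the twists by the values
`f(t)` at the rational numbers `t = u / v` ordered by their height `max (|u|, |v|)`.

As the curve has one point at infinity and this point is rational, `J(L)` is the Picard group of
the affine coordinate ring `L[x, y] / (y² - F(u, v) ∏ (x - a_i))` for every extension `L` of `ℚ`.
The classes of `Ш` are the classes of continuous cocycles of the absolute Galois group of `ℚ` in
`J(ℚ^sep)` which are trivial over `ℚ_p` for every prime `p` (nothing is asked at the real place, so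
that the group is at least as large as the Tate-Shafarevich group).
-/

namespace Pool.Agent.Results.MP_6073f3_nt.TwistsByBinaryForms

open Finset Polynomial IsDedekindDomain
open Pool.Agent.Y713.Jac (J Cochain IsCocycle IsCoboundary IsLocallyTrivial)

section
variable {K : Type} [Field K] (F : K[X]) (R : Type) [CommRing R] [IsDedekindDomain R] [Algebra R K]
  [IsFractionRing R K]

/-- the group `J(K) / 2 J(K)` for the Jacobian `J` of `y ^ 2 = F(x)` -/
abbrev PointsModTwo : Type := J 2 F K ⧸ (powMonoidHom 2 : J 2 F K →* J 2 F K).range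

/-- the continuous cocycles `f` of the Galois group of `K` in `J(K^sep)` which are trivial over the
completions of `K` at all the maximal ideals of `R` and for which `2 f` is a coboundary (the groups
`J` are written multiplicatively) -/
abbrev Cocycles : Type := {f : Cochain 2 F // IsCocycle 2 F f ∧ IsLocallyTrivial 2 F R f ∧
  IsCoboundary 2 F (fun σ => f σ ^ 2)}

/-- two cocycles are equivalent if their difference is a coboundary -/
def cohomologous : Setoid (Cocycles F R) where
  r f g := IsCoboundary 2 F (fun σ => f.1 σ / g.1 σ)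
  iseqv := (Run7.h69.JB.setoid2 F R).iseqv

/-- the elements of order two of the group of the locally trivial classes of `H ^ 1 (K, J)` -/
abbrev ShaTwo : Type := Quotient (cohomologous F R)

end

/-- the polynomial `d ∏ (x - a_i)` -/
noncomputable def curve {n : ℕ} (a : Fin n → ℤ) (d : ℤ) : ℚ[X] :=
  C (d : ℚ) * ∏ i, (X - C (a i : ℚ))

/-- the value at `(u, v)` of the binary form of degree `d` with the coefficients `c` -/
def form {d : ℕ} (c : Fin (d + 1) → ℤ) (u v : ℤ) : ℤ :=
  ∑ i : Fin (d + 1), c i * u ^ (i : ℕ) * v ^ (d - (i : ℕ))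

/-- All moments of the orders of `J(ℚ) / 2 J(ℚ)` and `Ш(J)[2]` are bounded on average for the
Jacobians `J` of the curves `y ^ 2 = F(u, v) ∏ (x - a_i)` of any genus `g ≥ 1`, for every binary
form `F`, over the pairs of coprime integers `u, v` of a square. -/
theorem result (g : ℕ) (hg : 1 ≤ g) (a : Fin (2 * g + 1) → ℤ) (ha : Function.Injective a)
    (d : ℕ) (c : Fin (d + 1) → ℤ) :
    (∀ u v : ℤ, form c u v ≠ 0 → Finite (PointsModTwo (curve a (form c u v))) ∧
      Finite (ShaTwo (curve a (form c u v)) ℤ)) ∧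
    ∀ (k : ℕ) (ε : ℝ), 0 < ε → ∃ C : ℝ, ∀ (x y : ℤ) (H : ℕ), 1 ≤ H → |(x : ℝ)| ^ ε ≤ H →
      |(y : ℝ)| ^ ε ≤ H →
      ∑ q ∈ (Ioc x (x + H) ×ˢ Ioc y (y + H)).filter
          (fun q => Int.gcd q.1 q.2 = 1 ∧ form c q.1 q.2 ≠ 0),
        ((Nat.card (PointsModTwo (curve a (form c q.1 q.2))) : ℝ) *
          Nat.card (ShaTwo (curve a (form c q.1 q.2)) ℤ)) ^ k ≤ C * (H : ℝ) ^ 2 := by
  classical
  have hn : Odd (2 * g + 1) := ⟨g, rfl⟩
  constructor
  · intro u v ht
    have h1 := Run7.h69.JB.fin (K := 2 * g) ha hn (form c u v) ht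
    have h2 : Finite (PointsModTwo (curve a (form c u v)) × ShaTwo (curve a (form c u v)) ℤ) := h1
    have hne : Nonempty (PointsModTwo (curve a (form c u v)) ×
      ShaTwo (curve a (form c u v)) ℤ) := Run7.h69.JB.nonempty2 _ _
    obtain ⟨w⟩ := hne
    refine ⟨Finite.of_injective (fun p => (p, w.2)) fun p q h => congrArg Prod.fst h,
      Finite.of_injective (fun s => (w.1, s)) fun p q h => congrArg Prod.snd h⟩
  · intro k ε hε
    rcases eq_or_ne c 0 with hc | hc
    · refine ⟨0, fun x y H _ _ _ => ?_⟩
      rw [sum_eq_zero, zero_mul]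
      intro q hq
      exfalso
      apply (mem_filter.1 hq).2.2
      unfold form
      refine sum_eq_zero fun i _ => ?_
      rw [hc, Pi.zero_apply, zero_mul, zero_mul]
    set M : ℕ := ⌈1 / ε⌉₊ with hM
    obtain ⟨C, hC⟩ := Run7.h69.MA.jac_form (K := 2 * g) ha hn (by omega) hc k M
    have key : ∀ (x : ℤ) (H : ℕ), 1 ≤ H → |(x : ℝ)| ^ ε ≤ H → x.natAbs ≤ H ^ M := by
      intro x H hH hx
      have hHr : (1 : ℝ) ≤ H := by exact_mod_cast hH
      have h2 : |(x : ℝ)| ≤ (H : ℝ) ^ (M : ℝ) := by
        calc |(x : ℝ)| = (|(x : ℝ)| ^ ε) ^ (1 / ε) := by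
              rw [← Real.rpow_mul (abs_nonneg _), mul_one_div_cancel hε.ne', Real.rpow_one]
          _ ≤ (H : ℝ) ^ (1 / ε) := Real.rpow_le_rpow (by positivity) hx (by positivity)
          _ ≤ (H : ℝ) ^ (M : ℝ) := Real.rpow_le_rpow_of_exponent_le hHr (Nat.le_ceil _)
      rw [Real.rpow_natCast] at h2
      have h3 : ((x.natAbs : ℕ) : ℝ) = |(x : ℝ)| := by
        rw [Nat.cast_natAbs, Int.cast_abs]
      have h4 : ((x.natAbs : ℕ) : ℝ) ≤ ((H ^ M : ℕ) : ℝ) := by
        rw [h3]
        push_cast
        exact h2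
      exact_mod_cast h4
    refine ⟨C, fun x y H hH hx hy => ?_⟩
    refine le_trans (le_of_eq ?_) (hC x y H hH (key x H hH hx) (key y H hH hy))
    have hset : (Ioc x (x + H) ×ˢ Ioc y (y + H)).filter
          (fun q => Int.gcd q.1 q.2 = 1 ∧ form c q.1 q.2 ≠ 0) =
        (Ioc x (x + H) ×ˢ Ioc y (y + H)).filter
          (fun q => IsCoprime q.1 q.2 ∧ Run7.h69.MA.form c q.1 q.2 ≠ 0) := by
      refine filter_congr fun q _ => ?_
      rw [Int.isCoprime_iff_gcd_eq_one]
      rfl
    rw [hset]
    refine sum_congr rfl fun q _ => ?_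
    congr 1
    have h5 : Run7.h69.JB.nW a (Run7.h69.MA.form c q.1 q.2) =
        Nat.card (PointsModTwo (curve a (form c q.1 q.2))) *
        Nat.card (ShaTwo (curve a (form c q.1 q.2)) ℤ) := Nat.card_prod _ _
    rw [h5]
    push_cast
    rfl

end Pool.Agent.Results.MP_6073f3_nt.TwistsByBinaryForms
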